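import Pool.Agent.helper35.LV.Spec

/-!
# lv:HX4 (MP_a2a22c_al): the hexagon
-/

set_option autoImplicit false

namespace Pool.Agent.LV

open Matrix Pool.Agent.H48SL Pool.Agent.UG

theorem HX4_comm {i j k l : Fin 3} (h1 : j ≠ k) (h2 : l ≠ i) (r s : ℚ) :
    xm i j r * xm k l s = xm k l s * xm i j r := by
  unfold xm
  rw [Matrix.add_mul, Matrix.mul_add, Matrix.mul_add, Matrix.add_mul, Matrix.mul_add, Matrix.mul_add,
    Matrix.single_mul_single_of_ne _ _ _ _ h1, Matrix.single_mul_single_of_ne _ _ _ _ h2]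
  simp only [Matrix.one_mul, Matrix.mul_one, add_zero]
  abel

theorem HX4_add {i j : Fin 3} (h : i ≠ j) (r s : ℚ) : xm i j r * xm i j s = xm i j (r + s) := by
  unfold xm
  rw [Matrix.add_mul, Matrix.mul_add, Matrix.mul_add, Matrix.single_mul_single_of_ne _ _ _ _ h.symm,
    Matrix.single_add]
  simp only [Matrix.one_mul, Matrix.mul_one, add_zero]
  abel

theorem HX4_zero (i j : Fin 3) : xm i j 0 = 1 := by
  unfold xm
  rw [Matrix.single_zero, add_zero]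

theorem HX4_trans {S : Set (MQ 3)} (hS : IsGrp S) {A B C : MQ 3} (h1 : Rel S A B) (h2 : Rel S B C) :
    Rel S A C := by
  obtain ⟨X, hX, rfl⟩ := h1
  obtain ⟨Y, hY, rfl⟩ := h2
  exact ⟨Y * X, hS.2.1 _ hY _ hX, by rw [Matrix.mul_assoc]⟩

/-- HX4 -/
theorem HX4 (hHX2 : HX2_stmt) (hHX3 : HX3_stmt) : HX4_stmt := by
  intro S hS h
  obtain ⟨a0, c0, e0, ha0, hc0, hn0⟩ := h 0 1 2 (by decide) (by decide) (by decide)
  obtain ⟨a1, c1, e1, ha1, hc1, hn1⟩ := h 0 2 1 (by decide) (by decide) (by decide)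
  obtain ⟨a2, c2, e2, ha2, hc2, hn2⟩ := h 2 0 1 (by decide) (by decide) (by decide)
  obtain ⟨a3, c3, e3, ha3, hc3, hn3⟩ := h 2 1 0 (by decide) (by decide) (by decide)
  obtain ⟨a4, c4, e4, ha4, hc4, hn4⟩ := h 1 2 0 (by decide) (by decide) (by decide)
  obtain ⟨a5, c5, e5, ha5, hc5, hn5⟩ := h 1 0 2 (by decide) (by decide) (by decide)
  let α : ℕ → ℚ := fun t => match t with
    | 0 => -(a0 / c0)
    | 1 => -(c1 / a1)
    | 2 => -(a2 / c2)
    | 3 => -(c3 / a3)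
    | 4 => -(a4 / c4)
    | 5 => -(c5 / a5)
    | _ => 1
  let κ : ℕ → ℚ := fun t => match t with
    | 0 => a0 / (2 * c0)
    | 1 => -(c1 / (2 * a1))
    | 2 => a2 / (2 * c2)
    | 3 => -(c3 / (2 * a3))
    | 4 => a4 / (2 * c4)
    | 5 => -(c5 / (2 * a5))
    | _ => 1
  let l : ℕ → ℚ := fun t => match t with
    | 0 => a0 / 2 - e0 / c0
    | 1 => c1 / 2 - e1 / a1
    | 2 => a2 / 2 - e2 / c2
    | 3 => c3 / 2 - e3 / a3
    | 4 => a4 / 2 - e4 / c4
    | 5 => c5 / 2 - e5 / a5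
    | _ => 1
  let γ : ℕ → ℚ := fun t => match t with
    | 0 => c0
    | 1 => a1
    | 2 => c2
    | 3 => a3
    | 4 => c4
    | 5 => a5
    | _ => 1
  have hα : ∀ t, α t ≠ 0 := by
    intro t
    match t with
    | 0 => exact neg_ne_zero.2 (div_ne_zero ha0 hc0)
    | 1 => exact neg_ne_zero.2 (div_ne_zero hc1 ha1)
    | 2 => exact neg_ne_zero.2 (div_ne_zero ha2 hc2)
    | 3 => exact neg_ne_zero.2 (div_ne_zero hc3 ha3)
    | 4 => exact neg_ne_zero.2 (div_ne_zero ha4 hc4)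
    | 5 => exact neg_ne_zero.2 (div_ne_zero hc5 ha5)
    | _ + 6 => exact one_ne_zero
  have hκ : ∀ t, κ t ≠ 0 := by
    intro t
    match t with
    | 0 => exact div_ne_zero ha0 (mul_ne_zero two_ne_zero hc0)
    | 1 => exact neg_ne_zero.2 (div_ne_zero hc1 (mul_ne_zero two_ne_zero ha1))
    | 2 => exact div_ne_zero ha2 (mul_ne_zero two_ne_zero hc2)
    | 3 => exact neg_ne_zero.2 (div_ne_zero hc3 (mul_ne_zero two_ne_zero ha3))
    | 4 => exact div_ne_zero ha4 (mul_ne_zero two_ne_zero hc4)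
    | 5 => exact neg_ne_zero.2 (div_ne_zero hc5 (mul_ne_zero two_ne_zero ha5))
    | _ + 6 => exact one_ne_zero
  have hγ : ∀ t, γ t ≠ 0 := by
    intro t
    match t with
    | 0 => exact hc0
    | 1 => exact ha1
    | 2 => exact hc2
    | 3 => exact ha3
    | 4 => exact hc4
    | 5 => exact ha5
    | _ + 6 => exact one_ne_zero
  obtain ⟨D, -, hm, s₁, s₂, hne⟩ := hHX3 α κ l γ hα hκ hγ
  have key : ∀ s : ℤ, xm 1 2 ((D : ℚ) * s - ((AB α κ l 6).2).eval ((D : ℚ) * s)) *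
      xm 0 2 (-((AB α κ l 6).1).eval ((D : ℚ) * s)) ∈ S := by
    intro s
    obtain ⟨A, hA⟩ : ∃ A : ℕ → ℚ, ∀ t, A t = ((AB α κ l t).1).eval ((D : ℚ) * s) := ⟨_, fun t => rfl⟩
    obtain ⟨B, hB⟩ : ∃ B : ℕ → ℚ, ∀ t, B t = ((AB α κ l t).2).eval ((D : ℚ) * s) := ⟨_, fun t => rfl⟩
    have hA0 : A 0 = 0 := by rw [hA]; simp [AB]
    have hB0 : B 0 = (D : ℚ) * s := by rw [hB]; simp [AB]
    have hA1 : ∀ t, A (t + 1) = α t * B t := by
      intro t; rw [hA, hB]; simp [AB]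
    have hB1 : ∀ t, B (t + 1) = A t + κ t * B t ^ 2 + l t * B t := by
      intro t; rw [hA, hB, hB]; simp [AB]
    obtain ⟨m0, hm0⟩ := hm s 0 (by norm_num)
    obtain ⟨m1, hm1⟩ := hm s 1 (by norm_num)
    obtain ⟨m2, hm2⟩ := hm s 2 (by norm_num)
    obtain ⟨m3, hm3⟩ := hm s 3 (by norm_num)
    obtain ⟨m4, hm4⟩ := hm s 4 (by norm_num)
    obtain ⟨m5, hm5⟩ := hm s 5 (by norm_num)
    rw [← hB] at hm0 hm1 hm2 hm3 hm4 hm5
    have r0 : Rel S (xm 1 2 (B 0) * xm 0 2 (A 0)) (xm 0 1 (A 1) * xm 0 2 (B 1)) := by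
      have := (hHX2 S hS 0 1 2 (by decide) (by decide) (by decide) a0 c0 e0 ha0 hc0 hn0 m0 (B 0) (A 0)).1 hm0
      rw [hA1 0, hB1 0]
      exact this
    have r1 : Rel S (xm 0 1 (A 1) * xm 0 2 (B 1)) (xm 2 1 (A 2) * xm 0 1 (B 2)) := by
      have := (hHX2 S hS 0 2 1 (by decide) (by decide) (by decide) a1 c1 e1 ha1 hc1 hn1 m1 (B 1) (A 1)).2 hm1
      rw [hA1 1, hB1 1, HX4_comm (by decide) (by decide)]
      exact this
    have r2 : Rel S (xm 2 1 (A 2) * xm 0 1 (B 2)) (xm 2 0 (A 3) * xm 2 1 (B 3)) := by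
      have := (hHX2 S hS 2 0 1 (by decide) (by decide) (by decide) a2 c2 e2 ha2 hc2 hn2 m2 (B 2) (A 2)).1 hm2
      rw [hA1 2, hB1 2, HX4_comm (by decide) (by decide)]
      exact this
    have r3 : Rel S (xm 2 0 (A 3) * xm 2 1 (B 3)) (xm 1 0 (A 4) * xm 2 0 (B 4)) := by
      have := (hHX2 S hS 2 1 0 (by decide) (by decide) (by decide) a3 c3 e3 ha3 hc3 hn3 m3 (B 3) (A 3)).2 hm3
      rw [hA1 3, hB1 3, HX4_comm (by decide) (by decide)]
      exact this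
    have r4 : Rel S (xm 1 0 (A 4) * xm 2 0 (B 4)) (xm 1 2 (A 5) * xm 1 0 (B 5)) := by
      have := (hHX2 S hS 1 2 0 (by decide) (by decide) (by decide) a4 c4 e4 ha4 hc4 hn4 m4 (B 4) (A 4)).1 hm4
      rw [hA1 4, hB1 4, HX4_comm (by decide) (by decide)]
      exact this
    have r5 : Rel S (xm 1 2 (A 5) * xm 1 0 (B 5)) (xm 0 2 (A 6) * xm 1 2 (B 6)) := by
      have := (hHX2 S hS 1 0 2 (by decide) (by decide) (by decide) a5 c5 e5 ha5 hc5 hn5 m5 (B 5) (A 5)).2 hm5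
      rw [hA1 5, hB1 5, HX4_comm (by decide) (by decide)]
      exact this
    obtain ⟨C, hC, hrel⟩ := HX4_trans hS r0 (HX4_trans hS r1 (HX4_trans hS r2 (HX4_trans hS r3
      (HX4_trans hS r4 r5))))
    rw [← hA, ← hB, ← hB0]
    rw [hA0, HX4_zero, Matrix.mul_one] at hrel
    have hCe : xm 1 2 (B 0 - B 6) * xm 0 2 (-A 6) = C := by
      have e1 : xm 1 2 (B 0 - B 6) * xm 0 2 (-A 6) =
          xm 1 2 (-B 6) * (xm 0 2 (-A 6) * xm 1 2 (B 0)) := by
        rw [HX4_comm (i := 0) (j := 2) (k := 1) (l := 2) (by decide) (by decide), ← Matrix.mul_assoc,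
          HX4_add (by decide)]
        congr 2
        ring
      rw [e1, hrel, ← Matrix.mul_assoc, ← Matrix.mul_assoc, ← Matrix.mul_assoc]
      rw [Matrix.mul_assoc (xm 1 2 (-B 6)) (xm 0 2 (-A 6)) (xm 0 2 (A 6)), HX4_add (by decide),
        neg_add_cancel, HX4_zero, Matrix.mul_one, HX4_add (by decide), neg_add_cancel, HX4_zero,
        Matrix.one_mul]
    rw [hCe]
    exact hC
  refine ⟨_, _, _, _, ?_, key s₁, key s₂⟩
  intro hcon
  apply hne
  linear_combination -hcon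

end Pool.Agent.LV
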